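import Mathlib

set_option autoImplicit false

/-!
Oscillating travelling waves: basic integrals.
-/

namespace Pool.Agent.W720.Osc

open MeasureTheory Filter Topology

/-- translation in `L¹` is continuous -/
theorem transl (G : ℝ × ℝ → ℝ) (hG : Integrable G) :
    Tendsto (fun h : ℝ => ∫ z, ‖G (z + (h, 0)) - G z‖) (𝓝 0) (𝓝 0) := by
  let F : Lp ℝ 1 (volume : Measure (ℝ × ℝ)) := hG.toL1 G
  let g : ℝ → C(ℝ × ℝ, ℝ × ℝ) := fun h => ⟨fun z => z + (h, 0), by fun_prop⟩
  have hg : Continuous g := by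
    refine ContinuousMap.continuous_of_continuous_uncurry _ ?_
    show Continuous fun p : ℝ × (ℝ × ℝ) => p.2 + (p.1, 0)
    fun_prop
  have hgm : ∀ h, MeasurePreserving (g h) (volume : Measure (ℝ × ℝ)) volume := fun h =>
    measurePreserving_add_right volume (h, (0:ℝ))
  have hF : ∀ h, (Lp.compMeasurePreserving (g h) (hgm h) F : ℝ × ℝ → ℝ) =ᵐ[volume]
      fun z => G (z + (h, 0)) := by
    intro h
    refine (Lp.coeFn_compMeasurePreserving F (hgm h)).trans ?_
    exact (hgm h).quasiMeasurePreserving.ae_eq_comp (Integrable.coeFn_toL1 hG)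
  have h1 : Tendsto (fun h => Lp.compMeasurePreserving (g h) (hgm h) F) (𝓝 0)
      (𝓝 (Lp.compMeasurePreserving (g 0) (hgm 0) F)) :=
    Filter.Tendsto.compMeasurePreservingLp tendsto_const_nhds (hg.tendsto 0) hgm (hgm 0) (by simp)
  have h2 : Tendsto (fun h => ‖Lp.compMeasurePreserving (g h) (hgm h) F
      - Lp.compMeasurePreserving (g 0) (hgm 0) F‖) (𝓝 0) (𝓝 0) := by
    rw [← tendsto_iff_norm_sub_tendsto_zero]
    exact h1
  refine h2.congr fun h => ?_
  rw [L1.norm_eq_integral_norm]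
  refine integral_congr_ae ?_
  filter_upwards [Lp.coeFn_sub (Lp.compMeasurePreserving (g h) (hgm h) F)
    (Lp.compMeasurePreserving (g 0) (hgm 0) F), hF h, hF 0] with z h1 h2 h3
  rw [h1, Pi.sub_apply, h2, h3]
  have : z + ((0:ℝ), (0:ℝ)) = z := by
    ext <;> simp
  rw [this]

/-- the square wave of frequency `m` -/
noncomputable def sq (m : ℝ) (y : ℝ) : ℝ := if Int.fract (m * y) < 1 / 2 then 1 else 0

theorem sq_meas (m : ℝ) : Measurable (sq m) := by
  unfold sq
  refine Measurable.ite ?_ measurable_const measurable_const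
  exact measurableSet_lt (measurable_fract.comp (measurable_const.mul measurable_id)) measurable_const

theorem sq_nonneg (m y : ℝ) : 0 ≤ sq m y := by unfold sq; split_ifs <;> norm_num

theorem sq_le (m y : ℝ) : sq m y ≤ 1 := by unfold sq; split_ifs <;> norm_num

theorem sq_cases (m y : ℝ) : sq m y = 0 ∨ sq m y = 1 := by unfold sq; split_ifs <;> simp

theorem fract_add_half (a : ℝ) : Int.fract (a + 1 / 2) < 1 / 2 ↔ ¬ Int.fract a < 1 / 2 := by
  have h0 := Int.fract_nonneg a
  have h1 := Int.fract_lt_one a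
  have ha : a = ⌊a⌋ + Int.fract a := (Int.floor_add_fract a).symm
  rcases lt_or_ge (Int.fract a) (1 / 2) with h | h
  · have : Int.fract (a + 1 / 2) = Int.fract a + 1 / 2 := by
      rw [Int.fract_eq_iff]
      refine ⟨by linarith, by linarith, ⌊a⌋, ?_⟩
      linarith
    rw [this]
    constructor
    · intro h2; linarith
    · intro h2; exact absurd h h2
  · have : Int.fract (a + 1 / 2) = Int.fract a - 1 / 2 := by
      rw [Int.fract_eq_iff]
      refine ⟨by linarith, by linarith, ⌊a⌋ + 1, ?_⟩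
      push_cast
      linarith
    rw [this]
    constructor
    · intro _; exact not_lt.mpr h
    · intro _; linarith

theorem sq_shift (m : ℝ) (hm : 0 < m) (y : ℝ) : sq m (y + 1 / (2 * m)) = 1 - sq m y := by
  have : m * (y + 1 / (2 * m)) = m * y + 1 / 2 := by field_simp
  unfold sq
  rw [this]
  simp only [fract_add_half]
  split_ifs <;> simp_all

/-- a fast square wave converges weakly to `1/2` -/
theorem sq_weak (G : ℝ × ℝ → ℝ) (hG : Integrable G) :
    Tendsto (fun n : ℕ => ∫ z, sq ((n : ℝ) + 1) (z.1 - z.2) * G z) atTop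
      (𝓝 (1 / 2 * ∫ z, G z)) := by
  have hm : ∀ n : ℕ, (0:ℝ) < (n : ℝ) + 1 := fun n => by positivity
  set h : ℕ → ℝ := fun n => 1 / (2 * ((n : ℝ) + 1)) with hh
  have hlim : Tendsto h atTop (𝓝 0) := by
    have := (tendsto_one_div_add_atTop_nhds_zero_nat (𝕜 := ℝ)).const_mul (1/2)
    simp only [mul_zero] at this
    refine this.congr fun n => ?_
    rw [hh]; field_simp
  have hmeas : ∀ n : ℕ, Measurable fun z : ℝ × ℝ => sq ((n : ℝ) + 1) (z.1 - z.2) := fun n =>
    (sq_meas _).comp (measurable_fst.sub measurable_snd)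
  have hb : ∀ n : ℕ, ∀ z : ℝ × ℝ, ‖sq ((n : ℝ) + 1) (z.1 - z.2)‖ ≤ 1 := fun n z => by
    rw [Real.norm_eq_abs, abs_of_nonneg (sq_nonneg _ _)]; exact sq_le _ _
  have hint : ∀ n : ℕ, ∀ F : ℝ × ℝ → ℝ, Integrable F →
      Integrable fun z => sq ((n : ℝ) + 1) (z.1 - z.2) * F z := fun n F hF =>
    hF.bdd_mul (hmeas n).aestronglyMeasurable (Eventually.of_forall (hb n))
  have hGs : ∀ k : ℝ, Integrable fun z : ℝ × ℝ => G (z + (k, 0)) := fun k => by
    exact hG.comp_add_right (k, (0:ℝ))
  have key : ∀ n : ℕ, ‖(∫ z, sq ((n : ℝ) + 1) (z.1 - z.2) * G z) - 1 / 2 * ∫ z, G z‖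
      ≤ ∫ z, ‖G (z + (h n, 0)) - G z‖ := by
    intro n
    have e1 : ∫ z, sq ((n : ℝ) + 1) (z.1 - z.2) * G z
        = ∫ z : ℝ × ℝ, (1 - sq ((n : ℝ) + 1) (z.1 - z.2)) * G (z + (h n, 0)) := by
      rw [← integral_add_right_eq_self (μ := (volume : Measure (ℝ × ℝ))) _ ((h n : ℝ), (0 : ℝ))]
      refine integral_congr_ae (Eventually.of_forall fun z => ?_)
      simp only [Prod.fst_add, Prod.snd_add, add_zero]
      have : z.1 + h n - z.2 = (z.1 - z.2) + 1 / (2 * ((n : ℝ) + 1)) := by
        rw [hh]; ring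
      rw [this, sq_shift _ (hm n)]
    have e2 : ∫ z : ℝ × ℝ, (1 - sq ((n : ℝ) + 1) (z.1 - z.2)) * G (z + (h n, 0))
        = (∫ z : ℝ × ℝ, G (z + (h n, 0))) -
          ∫ z : ℝ × ℝ, sq ((n : ℝ) + 1) (z.1 - z.2) * G (z + (h n, 0)) := by
      rw [← integral_sub (hGs _) (hint n _ (hGs _))]
      refine integral_congr_ae (Eventually.of_forall fun z => ?_)
      simp only
      ring
    have e3 : (∫ z : ℝ × ℝ, G (z + (h n, 0))) = ∫ z, G z :=
      integral_add_right_eq_self (μ := (volume : Measure (ℝ × ℝ))) G ((h n : ℝ), (0 : ℝ))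
    have e4 : (∫ z : ℝ × ℝ, sq ((n : ℝ) + 1) (z.1 - z.2) * G (z + (h n, 0)))
        = (∫ z, sq ((n : ℝ) + 1) (z.1 - z.2) * G z) +
          ∫ z, sq ((n : ℝ) + 1) (z.1 - z.2) * (G (z + (h n, 0)) - G z) := by
      have hd : Integrable fun z : ℝ × ℝ => G (z + (h n, 0)) - G z := (hGs _).sub hG
      rw [← integral_add (hint n _ hG) (hint n _ hd)]
      refine integral_congr_ae (Eventually.of_forall fun z => ?_)
      simp only
      ring
    have e5 : (∫ z, sq ((n : ℝ) + 1) (z.1 - z.2) * G z) - 1 / 2 * ∫ z, G z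
        = - (1 / 2) * ∫ z, sq ((n : ℝ) + 1) (z.1 - z.2) * (G (z + (h n, 0)) - G z) := by
      rw [e2, e3, e4] at e1
      linarith
    rw [e5, norm_mul]
    have e6 : ‖∫ z, sq ((n : ℝ) + 1) (z.1 - z.2) * (G (z + (h n, 0)) - G z)‖
        ≤ ∫ z, ‖G (z + (h n, 0)) - G z‖ := by
      refine (norm_integral_le_integral_norm _).trans ?_
      refine integral_mono (hint n _ ((hGs _).sub hG)).norm ((hGs _).sub hG).norm fun z => ?_
      simp only
      rw [norm_mul]
      exact mul_le_of_le_one_left (norm_nonneg _) (hb n z)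
    have e7 : ‖-(1 / 2 : ℝ)‖ ≤ 1 := by norm_num
    calc _ ≤ 1 * ‖∫ z, sq ((n : ℝ) + 1) (z.1 - z.2) * (G (z + (h n, 0)) - G z)‖ :=
          mul_le_mul_of_nonneg_right e7 (norm_nonneg _)
      _ ≤ _ := by rw [one_mul]; exact e6
  rw [tendsto_iff_norm_sub_tendsto_zero]
  exact squeeze_zero (fun n => norm_nonneg _) key ((transl G hG).comp hlim)

/-- the integral of a derivative along a direction against a function constant in this direction -/
theorem char_int (c : ℝ → ℝ) (hc : Measurable c) (hb : ∀ y, |c y| ≤ 1) (φ : ℝ × ℝ → ℝ)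
    (hφ : ContDiff ℝ ((⊤ : ℕ∞) : WithTop ℕ∞) φ) (hs : HasCompactSupport φ) :
    ∫ z : ℝ × ℝ, c (z.1 - z.2) * fderiv ℝ φ z (1, 1) = 0 := by
  have hcd : Continuous fun z => fderiv ℝ φ z (1, 1) :=
    (hφ.continuous_fderiv (by simp)).clm_apply continuous_const
  have hcs : HasCompactSupport fun z => fderiv ℝ φ z (1, 1) := hs.fderiv_apply (𝕜 := ℝ) (1, 1)
  have hi : Integrable fun z => fderiv ℝ φ z (1, 1) := hcd.integrable_of_hasCompactSupport hcs
  have hF : Integrable fun z : ℝ × ℝ => c (z.1 - z.2) * fderiv ℝ φ z (1, 1) :=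
    hi.bdd_mul (c := 1) (hc.comp (measurable_fst.sub measurable_snd)).aestronglyMeasurable
      (Eventually.of_forall fun z => hb _)
  have hmp : MeasurePreserving (fun z : ℝ × ℝ => (z.1 + z.2, z.2)) volume volume :=
    measurePreserving_add_prod (volume : Measure ℝ) (volume : Measure ℝ)
  have hemb : MeasurableEmbedding (fun z : ℝ × ℝ => (z.1 + z.2, z.2)) := by
    refine (Homeomorph.mk ⟨fun z : ℝ × ℝ => (z.1 + z.2, z.2), fun z => (z.1 - z.2, z.2),
      fun z => by ext <;> simp, fun z => by ext <;> simp⟩ ?_ ?_).measurableEmbedding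
    · show Continuous fun z : ℝ × ℝ => (z.1 + z.2, z.2)
      fun_prop
    · show Continuous fun z : ℝ × ℝ => (z.1 - z.2, z.2)
      fun_prop
  have hF2 := (hmp.integrable_comp_emb hemb).mpr hF
  rw [← hmp.integral_comp hemb]
  rw [Measure.volume_eq_prod] at hF2 ⊢
  refine (integral_prod _ hF2).trans ?_
  have : ∀ y : ℝ, ∫ t : ℝ, c ((y + t) - t) * fderiv ℝ φ (y + t, t) (1, 1) = 0 := by
    intro y
    have e1 : ∀ t : ℝ, c ((y + t) - t) * fderiv ℝ φ (y + t, t) (1, 1)
        = c y * fderiv ℝ φ (y + t, t) (1, 1) := by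
      intro t; rw [add_sub_cancel_right]
    simp only [e1]
    rw [integral_const_mul]
    have hcl : Topology.IsClosedEmbedding (fun t : ℝ => (y + t, t)) := by
      refine Topology.IsClosedEmbedding.of_continuous_injective_isClosedMap (by fun_prop) ?_ ?_
      · intro a b h; simpa using (Prod.ext_iff.mp h).2
      · intro s hs
        have : (fun t : ℝ => (y + t, t)) '' s = {z : ℝ × ℝ | z.2 ∈ s ∧ z.1 = y + z.2} := by
          ext z
          constructor
          · rintro ⟨t, ht, rfl⟩; exact ⟨ht, rfl⟩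
          · rintro ⟨h1, h2⟩; exact ⟨z.2, h1, Prod.ext h2.symm rfl⟩
        rw [this]
        exact (hs.preimage continuous_snd).inter
          (isClosed_eq continuous_fst (by fun_prop))
    have hd : ∀ t : ℝ, HasDerivAt (fun t : ℝ => φ (y + t, t)) (fderiv ℝ φ (y + t, t) (1, 1)) t := by
      intro t
      have h1 : HasDerivAt (fun t : ℝ => (y + t, t)) ((1 : ℝ), (1 : ℝ)) t :=
        ((hasDerivAt_id t).const_add y).prodMk (hasDerivAt_id t)
      have h2 : HasFDerivAt φ (fderiv ℝ φ (y + t, t)) (y + t, t) :=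
        (hφ.differentiable (by simp) _).hasFDerivAt
      exact HasFDerivAt.comp_hasDerivAt (f := fun t : ℝ => (y + t, t)) t h2 h1
    have i1 : Integrable fun t : ℝ => fderiv ℝ φ (y + t, t) (1, 1) :=
      (hcd.comp hcl.continuous).integrable_of_hasCompactSupport (hcs.comp_isClosedEmbedding hcl)
    have i2 : Integrable fun t : ℝ => φ (y + t, t) :=
      (hφ.continuous.comp hcl.continuous).integrable_of_hasCompactSupport
        (hs.comp_isClosedEmbedding hcl)
    rw [integral_eq_zero_of_hasDerivAt_of_integrable hd i1 i2, mul_zero]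
  simp only [Function.comp_def, this, integral_zero]

/-- the integral of a directional derivative of a compactly supported function -/
theorem dir_int (v : ℝ × ℝ) (φ : ℝ × ℝ → ℝ)
    (hφ : ContDiff ℝ ((⊤ : ℕ∞) : WithTop ℕ∞) φ) (hs : HasCompactSupport φ) :
    ∫ z : ℝ × ℝ, fderiv ℝ φ z v = 0 := by
  have hcd : Continuous fun z => fderiv ℝ φ z v :=
    (hφ.continuous_fderiv (by simp)).clm_apply continuous_const
  have hcs : HasCompactSupport fun z => fderiv ℝ φ z v := hs.fderiv_apply (𝕜 := ℝ) v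
  have hi : Integrable fun z => fderiv ℝ φ z v := hcd.integrable_of_hasCompactSupport hcs
  have h0 : Integrable φ := hφ.continuous.integrable_of_hasCompactSupport hs
  have h := integral_mul_fderiv_eq_neg_fderiv_mul_of_integrable (𝕜 := ℝ)
    (μ := (volume : Measure (ℝ × ℝ))) (f := fun _ => (1:ℝ)) (g := φ) (v := v)
    (by simp) (by simpa using hi) (by simpa using h0)
    (fun x _ => differentiableAt_const _) (fun x _ => hφ.differentiable (by simp) x)
  simpa using h

end Pool.Agent.W720.Osc
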